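import Pool.Agent.Lib.MP_de44a4_nt.CoverCount

/-!
# MP_de44a4_nt : a progression of numbers which are not sums of two prime powers, and the
representations of its members as sums of two figurate primes
-/

set_option autoImplicit false

namespace Pool.Agent.Results.MP_de44a4_nt.BinomialsNeeded

open FigSum

theorem result :
    (∀ n : ℕ, n % 11184810 = 7629217 →
      ¬ ∃ a b, (a = 1 ∨ IsPrimePow a) ∧ (b = 1 ∨ IsPrimePow b) ∧ a + b = n) ∧
    (∀ N : ℕ,
      {n : ℕ | n ≤ N ∧ n % 11184810 = 7629217 ∧ ∃ k b, Fig b ∧ 2 ^ k + b = n}.ncard ≤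
        (Nat.sqrt (2 * N) + 2) * (Nat.log 2 N + 1) ^ 2) ∧
    {n : ℕ | n % 11184810 = 7629217 ∧ ∃ a b, Fig a ∧ Fig b ∧ a + b = n}.Infinite :=
  ⟨fun _ hn => not_sum hn, few_pow, inf_sum⟩

end Pool.Agent.Results.MP_de44a4_nt.BinomialsNeeded
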