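import Pool.Agent.Lib.MP_de44a4_nt.Large

/-!
# Few integers are sums of two figurate primes with a small summand

For almost all `n` both summands of every representation of `n` as a sum of two figurate primes
exceed a multiple of `log n * log log n`.
-/

set_option autoImplicit false

namespace Pool.Agent.Results.MP_de44a4_nt.LargeSummands

open FigSum

/-- The number of `n ≤ N` which are sums of two figurate primes one of which is at most `K` is
`O(K N / (log K log N))`. -/
theorem result : ∃ C : ℝ, 0 < C ∧ ∀ N K : ℕ, 2 ≤ N → 2 ≤ K →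
    ({n : ℕ | n ≤ N ∧ ∃ a b, Fig a ∧ Fig b ∧ a + b = n ∧ a ≤ K}.ncard : ℝ) ≤
      C * (K / Real.log K) * (N / Real.log N) := by
  obtain ⟨C, hC, h⟩ := FigLarge.main
  exact ⟨C, hC, fun N K hN hK => (h N K hN hK).1⟩

end Pool.Agent.Results.MP_de44a4_nt.LargeSummands
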