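import Pool.Agent.Lib.MP_de44a4_nt.Comp

/-!
# Few integers are sums of two figurate primes neither of which is a prime

For all but `O(N / (log N) ^ 2)` of the `n ≤ N` every representation of `n` as a sum of two
figurate primes contains a prime number.
-/

set_option autoImplicit false

namespace Pool.Agent.Results.MP_de44a4_nt.PrimeSummand

open FigSum

/-- The number of `n ≤ N` which are sums of two figurate primes neither of which is a prime number
is `O(N / (log N) ^ 2)`. -/
theorem result : ∃ C : ℝ, 0 < C ∧ ∀ N : ℕ, 2 ≤ N →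
    ({n : ℕ | n ≤ N ∧ ∃ a b, Fig a ∧ Fig b ∧ a + b = n ∧ ¬ a.Prime ∧ ¬ b.Prime}.ncard : ℝ) ≤
      C * (N / (Real.log N) ^ 2) :=
  FigComp.main

end Pool.Agent.Results.MP_de44a4_nt.PrimeSummand
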